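import Pool.Agent.Lib.MP_940f24_an.Global

open Set
open Pool.Agent.Lib.MP_940f24_an

namespace Pool.Agent.Results.MP_940f24_an.Extension

universe u

theorem result (k : ℕ) (hk : 1 ≤ k) (X : Type u) [TopologicalSpace X] [T2Space X]
    [CompactSpace X] (𝒜 : ComplexAtlas X) (om : HermitianForm 𝒜)
    (I : Set (Fin k → ℂ)) (f : (Fin k → ℂ) → X)
    (hf : 𝒜.IsMeromorphic (polydisk k \ {0}) I f)
    (hvol : om.imageVolume ((polydisk k \ {0}) \ I) f < ⊤) :
    ∃ (I' : Set (Fin k → ℂ)) (F : (Fin k → ℂ) → X), 𝒜.IsMeromorphic (polydisk k) I' F ∧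
      EqOn F f ((polydisk k \ {0}) \ I) ∧
      graphClosure (polydisk k) I' F ∩ (polydisk k \ {0}) ×ˢ univ =
        graphClosure (polydisk k \ {0}) I f :=
  main hk om hf hvol

end Pool.Agent.Results.MP_940f24_an.Extension
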