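import Pool.Agent.Lib.MP_940f24_an.PEx

open Set
open Pool.Agent.Lib.MP_940f24_an

namespace Pool.Agent.Results.MP_940f24_an.PolarSets

universe u

theorem result (k m : ℕ) (hk : 1 ≤ k) (X : Type u) [TopologicalSpace X] [T2Space X]
    (𝒜 : ComplexAtlas X) (om : HermitianForm 𝒜) (D K I : Set (Fin k → ℂ)) (hD : IsOpen D)
    (hK : IsPolarIn D K) (g : (Fin k → ℂ) → (Fin m → ℂ)) (hg : AnalyticOnNhd ℂ g D)
    (hfib : ∀ c, IsCompact (K ∩ g ⁻¹' {c})) (f : (Fin k → ℂ) → X)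
    (hf : 𝒜.IsMeromorphic (D \ K) I f) :
    𝒜.IsAnalyticProd D (graphClosure D (K ∪ I) f) ↔
      ∀ C : Set ((Fin k → ℂ) × X), IsCompact C → C ⊆ D ×ˢ univ →
        om.jointVolume {z ∈ (D \ K) \ I | (z, f z) ∈ C} f g < ⊤ :=
  ⟨fun h _ hC hCD => polar_converse hk om hD hK.2.1 hg hf h hC hCD,
    polar_main hk om hD hK hg hfib hf⟩

/-- Check: the zero set of a holomorphic map is an admissible `K`. -/
theorem zero_set_isPolarIn {k r : ℕ} {D : Set (Fin k → ℂ)} (hD : IsOpen D)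
    {h : (Fin k → ℂ) → (Fin r → ℂ)} (hh : AnalyticOnNhd ℂ h D) :
    IsPolarIn D {z ∈ D | h z = 0} :=
  isPolarIn_zero_set hD hh

/-- Check: for compact `K` and `m = 0` the hypothesis is the finite volume of the image of `f`. -/
theorem compact_case (k : ℕ) (hk : 1 ≤ k) (X : Type u) [TopologicalSpace X] [T2Space X]
    (𝒜 : ComplexAtlas X) (om : HermitianForm 𝒜) (D K I : Set (Fin k → ℂ)) (hD : IsOpen D)
    (hK : IsPolarIn D K) (hKc : IsCompact K) (f : (Fin k → ℂ) → X)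
    (hf : 𝒜.IsMeromorphic (D \ K) I f) (hvol : om.imageVolume ((D \ K) \ I) f < ⊤) :
    𝒜.IsAnalyticProd D (graphClosure D (K ∪ I) f) := by
  refine (result k 0 hk X 𝒜 om D K I hD hK (fun _ => 0) analyticOnNhd_const
    (fun c => hKc.inter_right (isClosed_singleton.preimage continuous_const)) f hf).2
      fun C _ _ => lt_of_le_of_lt ?_ hvol
  have : ∀ z, (jac (fun _ : Fin k → ℂ => (0 : Fin 0 → ℂ)) z).conjTranspose *
      jac (fun _ : Fin k → ℂ => (0 : Fin 0 → ℂ)) z = 0 := fun z => by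
    ext a b
    simp [Matrix.mul_apply]
  simp only [HermitianForm.jointVolume, this, add_zero]
  exact MeasureTheory.lintegral_mono_set (sep_subset _ _)

/-- Check: the closure of the graph stays irreducible. -/
theorem irreducible {k : ℕ} {X : Type u} [TopologicalSpace X] {𝒜 : ComplexAtlas X}
    {D K I : Set (Fin k → ℂ)} (hK : IsPolarIn D K) {f : (Fin k → ℂ) → X}
    (hf : 𝒜.IsMeromorphic (D \ K) I f) (A₁ A₂ : Set ((Fin k → ℂ) × X))
    (h₁ : 𝒜.IsAnalyticProd D A₁) (h₂ : 𝒜.IsAnalyticProd D A₂)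
    (hA : graphClosure D (K ∪ I) f = A₁ ∪ A₂) :
    graphClosure D (K ∪ I) f = A₁ ∨ graphClosure D (K ∪ I) f = A₂ :=
  irreducible_across hK.2.1 hf A₁ A₂ h₁ h₂ hA

end Pool.Agent.Results.MP_940f24_an.PolarSets
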